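import Pool.Agent.Run7.h987.RT.Iface

/-!
# Piece GEN: the Hilbert matrix
-/

set_option autoImplicit false

namespace Pool.Agent.Run7.h929.RT

open Polynomial
open Pool.Agent.Run7.h987.RT

theorem t_GEN : P_GEN := by
  intro A B v hcard h j hj
  set P : ℝ[X] := ∑ j ∈ B, C (v j) * ∏ l ∈ B.erase j, (X + C ((l : ℝ) + 1)) with hP
  have hBpos : 0 < B.card := Finset.card_pos.mpr ⟨j, hj⟩
  have heval : ∀ x : ℝ, P.eval x = ∑ j ∈ B, v j * ∏ l ∈ B.erase j, (x + ((l : ℝ) + 1)) := by
    intro x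
    rw [hP, eval_finsetSum]
    refine Finset.sum_congr rfl fun i _ => ?_
    rw [eval_mul, eval_C, eval_prod]
    simp
  have hdeg : P.natDegree < B.card := by
    have h1 : P.natDegree ≤ B.card - 1 := by
      rw [hP]
      refine natDegree_sum_le_of_forall_le _ _ fun i hi => ?_
      refine (natDegree_C_mul_le _ _).trans ?_
      refine (natDegree_prod_le _ _).trans ?_
      refine (Finset.sum_le_card_nsmul _ _ 1 fun l _ => ?_).trans ?_
      · exact (natDegree_X_add_C _).le
      · rw [Finset.card_erase_of_mem hi]; simp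
    omega
  have hroot : ∀ i ∈ A, P.eval (i : ℝ) = 0 := by
    intro i hi
    rw [heval]
    have h1 : ∀ j ∈ B, v j * ∏ l ∈ B.erase j, ((i : ℝ) + ((l : ℝ) + 1)) =
        (∏ l ∈ B, ((i : ℝ) + ((l : ℝ) + 1))) * (v j / ((i : ℝ) + j + 1)) := by
      intro j hj
      rw [← Finset.mul_prod_erase B _ hj]
      have h2 : (i : ℝ) + j + 1 ≠ 0 := by positivity
      field_simp
      ring
    rw [Finset.sum_congr rfl h1, ← Finset.mul_sum, h i hi, mul_zero]
  have hP0 : P = 0 := by
    have hinj : Function.Injective (fun i : ℕ => (i : ℝ)) := Nat.cast_injective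
    refine eq_zero_of_natDegree_lt_card_of_eval_eq_zero' P (A.map ⟨_, hinj⟩) ?_ ?_
    · intro x hx
      rw [Finset.mem_map] at hx
      obtain ⟨i, hi, rfl⟩ := hx
      exact hroot i hi
    · rw [Finset.card_map]; omega
  have h3 := heval (-((j : ℝ) + 1))
  rw [hP0, eval_zero] at h3
  rw [Finset.sum_eq_single j] at h3
  · have h4 : ∏ l ∈ B.erase j, (-((j : ℝ) + 1) + ((l : ℝ) + 1)) ≠ 0 := by
      rw [Finset.prod_ne_zero_iff]
      intro l hl h5
      have h6 : (l : ℝ) = j := by linarith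
      exact (Finset.mem_erase.1 hl).1 (by exact_mod_cast h6)
    exact (mul_eq_zero.1 h3.symm).resolve_right h4
  · intro i hi hij
    have h4 : ∏ l ∈ B.erase i, (-((j : ℝ) + 1) + ((l : ℝ) + 1)) = 0 :=
      Finset.prod_eq_zero (Finset.mem_erase.2 ⟨hij.symm, hj⟩) (by ring)
    rw [h4, mul_zero]
  · exact fun h => absurd hj h

end Pool.Agent.Run7.h929.RT
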